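import Mathlib
import Pool.Agent.Helper21.LEC.Graph
import Pool.Agent.Helper21.LEL.Main

/-!
List edge colouring with lists of size at least `N`, `N` at least the maximum degree: degenerate
graphs, and graphs whose heavy core is degenerate.
-/

set_option autoImplicit false
set_option linter.unusedSectionVars false

namespace Pool.Agent.Helper21.LEH

open Finset Pool.Agent.Helper21.LEC

variable {V : Type} [Fintype V] [DecidableEq V]

/-- `H` can be properly edge coloured from the lists `L` -/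
def Col (H : SimpleGraph V) (L : Sym2 V → Finset ℕ) : Prop :=
  ∃ f : Sym2 V → ℕ, (∀ e ∈ H.edgeSet, f e ∈ L e) ∧
    ∀ u v w, H.Adj u v → H.Adj u w → v ≠ w → f s(u, v) ≠ f s(u, w)

/-- the abstract colouring statement on pairs, for given `N` and degeneracy `d` -/
def PairsOK (V : Type) [Fintype V] [DecidableEq V] (d N : ℕ) : Prop :=
  ∀ (K : ℕ) (_ : 0 < K) (r : V → ℕ) (_ : Function.Injective r) (B : V → Finset V)
    (_ : ∀ v, ∀ u ∈ B v, r u < r v) (_ : ∀ v, #(B v) ≤ d)
    (_ : ∀ u, #(fw B u) + #(B u) ≤ N) (L : V → V → Finset (Fin K))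
    (_ : ∀ u, ∀ v ∈ fw B u, #(L u v) = N),
    ∃ φ : V → V → Fin K, (∀ v, ∀ u ∈ B v, φ u v ∈ L u v) ∧
      (∀ v, ∀ u ∈ B v, ∀ u' ∈ B v, φ u v = φ u' v → u = u') ∧
      (∀ u, ∀ v ∈ fw B u, ∀ v' ∈ fw B u, φ u v = φ u v' → v = v') ∧
      (∀ u, ∀ w ∈ B u, ∀ v ∈ fw B u, φ w u ≠ φ u v)

theorem pairs_linear (d N : ℕ) (hd : 1 ≤ d) (hN : 2 * 10 ^ 24 * d ≤ N) : PairsOK V d N := by
  intro K hK r hr B hB hBd hdeg L hL
  by_cases hne : Nonempty V
  · have : Nonempty (Fin K) := ⟨⟨0, hK⟩⟩
    exact LEL.main_pairs r hr hB d N hd hBd hdeg L hL hN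
  · rw [not_nonempty_iff] at hne
    exact ⟨fun v => (hne.false v).elim, fun v => (hne.false v).elim, fun v => (hne.false v).elim,
      fun v => (hne.false v).elim, fun v => (hne.false v).elim⟩

theorem pairs_log (d N : ℕ) (hd : 1 ≤ d) (hN3 : 3 ≤ N)
    (hlog : 700 * (d : ℝ) * Real.log N ≤ N) : PairsOK V d N := by
  intro K hK r hr B hB hBd hdeg L hL
  by_cases hne : Nonempty V
  · have : Nonempty (Fin K) := ⟨⟨0, hK⟩⟩
    have : NeZero (4 * d) := ⟨by omega⟩
    have hfw : ∀ u, #(fw B u) ≤ N := fun u => by have := hdeg u; omega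
    obtain ⟨ω, hω⟩ := exists_good (V := V) (C := Fin K) (B := B) (L := L) (Nf := fun _ => N)
      (k := d) (D := N) (M := 4 * d) rfl hBd (fun u hu => by
        have := hB u u hu; omega) hL hdeg hfw (fun _ => hN3)
        (fun _ => num_ok hd le_rfl hN3 hlog)
    exact exists_colouring r hr hB hω
  · rw [not_nonempty_iff] at hne
    exact ⟨fun v => (hne.false v).elim, fun v => (hne.false v).elim, fun v => (hne.false v).elim,
      fun v => (hne.false v).elim, fun v => (hne.false v).elim⟩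

/-- degenerate graphs, lists of size at least `N` -/
theorem col_of_pairs (G : SimpleGraph V) [DecidableRel G.Adj] (d N : ℕ) (hP : PairsOK V d N)
    (h : ∀ W : Finset V, W.Nonempty → ∃ v ∈ W, #(W.filter (G.Adj v)) ≤ d)
    (hN : ∀ v, G.degree v ≤ N)
    (L : Sym2 V → Finset ℕ) (hL : ∀ e ∈ G.edgeSet, N ≤ #(L e)) : Col G L := by
  classical
  obtain ⟨r, hr, hrd⟩ := exists_rank G d h
  -- truncated lists
  have hT : ∀ e : Sym2 V, ∃ T ⊆ L e, e ∈ G.edgeSet → #T = N := by
    intro e
    by_cases he : e ∈ G.edgeSet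
    · obtain ⟨T, hT1, hT2⟩ := exists_subset_card_eq (hL e he)
      exact ⟨T, hT1, fun _ => hT2⟩
    · exact ⟨∅, by simp, fun h => absurd h he⟩
  choose T hTL hTc using hT
  set K : ℕ := (univ.biUnion L).sup id + 1 with hK
  have hKlt : ∀ e : Sym2 V, ∀ c ∈ T e, c < K := by
    intro e c hc
    have : c ≤ (univ.biUnion L).sup id :=
      le_sup (f := id) (mem_biUnion.2 ⟨e, mem_univ _, hTL e hc⟩)
    omega
  set B : V → Finset V := fun v => univ.filter fun w => G.Adj v w ∧ r w < r v with hB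
  have memB : ∀ {u v}, u ∈ B v ↔ G.Adj v u ∧ r u < r v := by intro u v; simp [hB]
  set L' : V → V → Finset (Fin K) := fun u v => (T s(u, v)).attachFin (hKlt _) with hL'
  have hL'c : ∀ u, ∀ v ∈ fw B u, #(L' u v) = N := by
    intro u v hv
    have huv : G.Adj u v := (memB.1 (mem_fw.1 hv)).1.symm
    simp only [hL']
    rw [card_attachFin, hTc _ huv]
  have hdeg : ∀ u, #(fw B u) + #(B u) ≤ N := by
    intro u
    have hdis : Disjoint (fw B u) (B u) := by
      rw [Finset.disjoint_left]
      intro v hv hv'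
      have h1 := (memB.1 (mem_fw.1 hv)).2
      have h2 := (memB.1 hv').2
      omega
    rw [← card_union_of_disjoint hdis]
    refine le_trans (card_le_card ?_) (hN u)
    intro v hv
    rw [SimpleGraph.mem_neighborFinset]
    rcases mem_union.1 hv with hv | hv
    · exact (memB.1 (mem_fw.1 hv)).1.symm
    · exact (memB.1 hv).1
  obtain ⟨φ, hφ1, hφ2, hφ3, hφ4⟩ := hP K (by omega) r hr B
    (fun v u hu => (memB.1 hu).2) hrd hdeg L' hL'c
  -- representatives
  have hrep : ∀ e : Sym2 V, ∃ u v, (e ∈ G.edgeSet → u ∈ B v ∧ e = s(u, v)) := by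
    intro e
    induction e with
    | _ a b =>
      by_cases hab : G.Adj a b
      · have hne : r a ≠ r b := fun hh => hab.ne (hr hh)
        rcases lt_or_gt_of_ne hne with hlt | hlt
        · exact ⟨a, b, fun _ => ⟨memB.2 ⟨hab.symm, hlt⟩, rfl⟩⟩
        · exact ⟨b, a, fun _ => ⟨memB.2 ⟨hab, hlt⟩, Sym2.eq_swap⟩⟩
      · exact ⟨a, b, fun h => absurd h hab⟩
  choose p q hpq using hrep
  refine ⟨fun e => (φ (p e) (q e)).1, ?_, ?_⟩
  · intro e he
    obtain ⟨h0, h00⟩ := hpq e he
    have h1 := hφ1 (q e) (p e) h0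
    simp only [hL'] at h1
    rw [mem_attachFin, ← h00] at h1
    exact hTL e h1
  · intro x a b hxa hxb hab heq
    have heq : φ (p s(x, a)) (q s(x, a)) = φ (p s(x, b)) (q s(x, b)) := Fin.ext heq
    obtain ⟨ha1, ha2⟩ := hpq s(x, a) hxa
    obtain ⟨hb1, hb2⟩ := hpq s(x, b) hxb
    generalize p s(x, a) = p1 at *
    generalize q s(x, a) = q1 at *
    generalize p s(x, b) = p2 at *
    generalize q s(x, b) = q2 at *
    rw [Sym2.eq_iff] at ha2 hb2
    rcases ha2 with ⟨h1, h2⟩ | ⟨h1, h2⟩ <;> rcases hb2 with ⟨h3, h4⟩ | ⟨h3, h4⟩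
    · subst h1; subst h2; subst h3; subst h4
      exact hab (hφ3 x a (mem_fw.2 ha1) b (mem_fw.2 hb1) heq)
    · subst h1; subst h2; subst h3; subst h4
      exact hφ4 x b hb1 a (mem_fw.2 ha1) heq.symm
    · subst h1; subst h2; subst h3; subst h4
      exact hφ4 x a ha1 b (mem_fw.2 hb1) heq
    · subst h1; subst h2; subst h3; subst h4
      exact hab (hφ2 x a ha1 b hb1 heq)

/-- adding a light edge -/
theorem col_add (H : SimpleGraph V) (L : Sym2 V → Finset ℕ) (N : ℕ) (a b : V) (hab : H.Adj a b)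
    [DecidableRel H.Adj] (hdeg : H.degree a + H.degree b ≤ N + 1) (hL : N ≤ #(L s(a, b)))
    (hcol : Col (H.deleteEdges {s(a, b)}) L) : Col H L := by
  classical
  obtain ⟨f, hf1, hf2⟩ := hcol
  have hda : 0 < H.degree a := (H.degree_pos_iff_exists_adj a).2 ⟨b, hab⟩
  have hdb : 0 < H.degree b := (H.degree_pos_iff_exists_adj b).2 ⟨a, hab.symm⟩
  set U : Finset ℕ := ((H.neighborFinset a).erase b).image (fun x => f s(a, x)) ∪
    ((H.neighborFinset b).erase a).image (fun x => f s(b, x)) with hU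
  have hUc : #U < N := by
    have h1 : #((H.neighborFinset a).erase b) = H.degree a - 1 := by
      rw [card_erase_of_mem (by simpa using hab)]; rfl
    have h2 : #((H.neighborFinset b).erase a) = H.degree b - 1 := by
      rw [card_erase_of_mem (by simpa using hab.symm)]; rfl
    have h3 : #U ≤ (H.degree a - 1) + (H.degree b - 1) := by
      refine (card_union_le _ _).trans (add_le_add ?_ ?_)
      · exact card_image_le.trans h1.le
      · exact card_image_le.trans h2.le
    omega
  obtain ⟨c, hcL, hcU⟩ : ∃ c ∈ L s(a, b), c ∉ U := by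
    by_contra hcon
    push Not at hcon
    have := card_le_card (show L s(a, b) ⊆ U from hcon)
    omega
  have hdel : ∀ x y, H.Adj x y → s(x, y) ≠ s(a, b) → (H.deleteEdges {s(a, b)}).Adj x y := by
    intro x y hxy hne
    rw [SimpleGraph.deleteEdges_adj]
    exact ⟨hxy, by simpa using hne⟩
  have hcU1 : ∀ x, H.Adj a x → x ≠ b → f s(a, x) ≠ c := by
    intro x hx hxb hh
    apply hcU
    rw [hU, mem_union]
    exact Or.inl (mem_image.2 ⟨x, mem_erase.2 ⟨hxb, by simpa using hx⟩, hh⟩)
  have hcU2 : ∀ x, H.Adj b x → x ≠ a → f s(b, x) ≠ c := by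
    intro x hx hxb hh
    apply hcU
    rw [hU, mem_union]
    exact Or.inr (mem_image.2 ⟨x, mem_erase.2 ⟨hxb, by simpa using hx⟩, hh⟩)
  refine ⟨fun e => if e = s(a, b) then c else f e, ?_, ?_⟩
  · intro e he
    by_cases h : e = s(a, b)
    · simp only [h, if_true]; exact hcL
    · simp only [h, if_false]
      apply hf1
      rw [SimpleGraph.edgeSet_deleteEdges]
      exact ⟨he, by simpa using h⟩
  · intro u v w huv huw hvw
    by_cases h1 : s(u, v) = s(a, b) <;> by_cases h2 : s(u, w) = s(a, b)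
    · exact absurd (Sym2.congr_right.1 (h1.trans h2.symm)) hvw
    · simp only [h1, if_true, h2, if_false]
      rw [Sym2.eq_iff] at h1
      rcases h1 with ⟨rfl, rfl⟩ | ⟨rfl, rfl⟩
      · exact (hcU1 w huw (Ne.symm hvw)).symm
      · exact (hcU2 w huw (Ne.symm hvw)).symm
    · simp only [h2, if_true, h1, if_false]
      rw [Sym2.eq_iff] at h2
      rcases h2 with ⟨rfl, rfl⟩ | ⟨rfl, rfl⟩
      · exact hcU1 v huv hvw
      · exact hcU2 v huv hvw
    · simp only [h1, h2, if_false]
      exact hf2 u v w (hdel _ _ huv h1) (hdel _ _ huw h2) hvw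

/-- heavy subgraph: every edge meets at least `N` other edges -/
def Heavy (H : SimpleGraph V) [DecidableRel H.Adj] (N : ℕ) : Prop :=
  ∀ u v, H.Adj u v → N + 2 ≤ H.degree u + H.degree v

/-- reduction to heavy subgraphs -/
theorem col_of_heavy (G : SimpleGraph V) (N : ℕ) (L : Sym2 V → Finset ℕ)
    (hL : ∀ e ∈ G.edgeSet, N ≤ #(L e))
    (hH : ∀ (H : SimpleGraph V) [DecidableRel H.Adj], H ≤ G → Heavy H N → Col H L) :
    Col G L := by
  classical
  have main : ∀ m : ℕ, ∀ H : SimpleGraph V, H ≤ G → Nat.card H.edgeSet = m → Col H L := by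
    intro m
    induction m using Nat.strong_induction_on with
    | _ m ih =>
      intro H hHG hm
      by_cases hheavy : Heavy H N
      · exact hH H hHG hheavy
      · unfold Heavy at hheavy
        push Not at hheavy
        obtain ⟨a, b, hab, hlt⟩ := hheavy
        have hle : H.deleteEdges {s(a, b)} ≤ H := H.deleteEdges_le _
        refine col_add H L N a b hab (by omega) (hL _ (hHG hab)) ?_
        refine ih (Nat.card (H.deleteEdges {s(a, b)}).edgeSet) ?_ _ (hle.trans hHG) rfl
        rw [← hm, SimpleGraph.edgeSet_deleteEdges]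
        have h1 : (H.edgeSet \ {s(a, b)}) ⊂ H.edgeSet := by
          refine ⟨Set.sdiff_subset, ?_⟩
          intro hh
          have h2 : s(a, b) ∈ H.edgeSet := hab
          have h3 := hh h2
          exact h3.2 rfl
        exact Set.ncard_lt_ncard h1 (Set.toFinite _)
  exact main _ G le_rfl rfl

end Pool.Agent.Helper21.LEH
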