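import Mathlib
import Pool.Agent.Helper21.LEH.Basic

/-!
Final statement for graphs whose heavy subgraphs are degenerate.
-/

set_option autoImplicit false
set_option linter.unusedSectionVars false

namespace Pool.Agent.Helper21.LEH

open Finset Pool.Agent.Helper21.LEC

variable {V : Type} [Fintype V] [DecidableEq V]

theorem col_core (G : SimpleGraph V) [DecidableRel G.Adj] (d : ℕ)
    (h : ∀ (H : SimpleGraph V) [DecidableRel H.Adj], H ≤ G →
      (∀ u v, H.Adj u v → G.maxDegree + 2 ≤ H.degree u + H.degree v) →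
      ∀ W : Finset V, W.Nonempty → ∃ v ∈ W, #(W.filter (H.Adj v)) ≤ d)
    (hΔ : 2 * 10 ^ 24 * d ≤ G.maxDegree ∨
      700 * (d : ℝ) * Real.log G.maxDegree ≤ G.maxDegree)
    (L : Sym2 V → Finset ℕ) (hL : ∀ e ∈ G.edgeSet, G.maxDegree ≤ #(L e)) : Col G L := by
  classical
  refine col_of_heavy G G.maxDegree L hL ?_
  intro H _ hHG hheavy
  have hdegH : ∀ v, H.degree v ≤ G.maxDegree := by
    intro v
    refine le_trans ?_ (G.degree_le_maxDegree v)
    apply card_le_card
    intro w hw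
    rw [SimpleGraph.mem_neighborFinset] at *
    exact hHG hw
  by_cases hedge : ∃ a b, H.Adj a b
  swap
  · push Not at hedge
    refine ⟨fun _ => 0, ?_, fun u v w huv => absurd huv (hedge u v)⟩
    intro e he
    induction e with
    | _ a b => exact absurd he (hedge a b)
  obtain ⟨a, b, hab⟩ := hedge
  have hΔ2 : 2 ≤ G.maxDegree := by
    have h1 := hheavy a b hab
    have h2 := hdegH a
    have h3 := hdegH b
    omega
  have hdeg := h H hHG hheavy
  have hd : 1 ≤ d := by
    by_contra hcon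
    obtain ⟨v, hv, hv2⟩ := hdeg {a, b} ⟨a, by simp⟩
    have h0 : #(({a, b} : Finset V).filter (H.Adj v)) = 0 := by omega
    rw [card_eq_zero, filter_eq_empty_iff] at h0
    rcases mem_insert.1 hv with rfl | hv
    · exact h0 (show b ∈ ({v, b} : Finset V) by simp) hab
    · rw [mem_singleton] at hv; subst hv
      exact h0 (show a ∈ ({a, v} : Finset V) by simp) hab.symm
  have hP : PairsOK V d G.maxDegree := by
    rcases hΔ with h1 | h1
    · exact pairs_linear d _ hd h1
    · refine pairs_log d _ hd ?_ h1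
      by_contra hcon
      have h2 : G.maxDegree = 2 := by omega
      rw [h2] at h1
      have hdr : (1 : ℝ) ≤ d := by exact_mod_cast hd
      have hl2 := Real.log_two_gt_d9
      push_cast at h1
      nlinarith
  exact col_of_pairs H d G.maxDegree hP hdeg hdegH L (fun e he => hL e (by
    induction e with
    | _ x y => exact hHG he))

theorem final (G : SimpleGraph V) [DecidableRel G.Adj] (d : ℕ)
    (h : ∀ (H : SimpleGraph V) [DecidableRel H.Adj], H ≤ G →
      (∀ u v, H.Adj u v → G.maxDegree + 2 ≤ H.degree u + H.degree v) →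
      ∀ W : Finset V, W.Nonempty → ∃ v ∈ W, #(W.filter (H.Adj v)) ≤ d)
    (hΔ : 2 * 10 ^ 24 * d ≤ G.maxDegree ∨
      700 * (d : ℝ) * Real.log G.maxDegree ≤ G.maxDegree) (n : ℕ) :
    (G.lineGraph.Colorable n ↔ ∀ L : G.edgeSet → Finset ℕ, (∀ e, n ≤ #(L e)) →
      ∃ f : G.edgeSet → ℕ, (∀ e, f e ∈ L e) ∧ ∀ e e', G.lineGraph.Adj e e' → f e ≠ f e') ∧
    (G.lineGraph.Colorable n ↔ G.maxDegree ≤ n) := by
  classical
  have h1 : (∀ L : G.edgeSet → Finset ℕ, (∀ e, n ≤ #(L e)) →
      ∃ f : G.edgeSet → ℕ, (∀ e, f e ∈ L e) ∧ ∀ e e', G.lineGraph.Adj e e' → f e ≠ f e') →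
      G.lineGraph.Colorable n := by
    intro hh
    obtain ⟨f, hf, hf'⟩ := hh (fun _ => range n) (fun _ => by rw [card_range])
    exact ⟨SimpleGraph.Coloring.mk (fun e => (⟨f e, mem_range.1 (hf e)⟩ : Fin n))
      (fun {a b} hab hcon => hf' a b hab (by simpa using hcon))⟩
  have h2 : G.maxDegree ≤ n → ∀ L : G.edgeSet → Finset ℕ, (∀ e, n ≤ #(L e)) →
      ∃ f : G.edgeSet → ℕ, (∀ e, f e ∈ L e) ∧
        ∀ e e', G.lineGraph.Adj e e' → f e ≠ f e' := by
    intro hn L hL
    obtain ⟨f, hf1, hf2⟩ := col_core G d h hΔ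
      (fun e => if he : e ∈ G.edgeSet then L ⟨e, he⟩ else ∅) (fun e he => by
        simp only [he, dif_pos]; exact hn.trans (hL _))
    refine ⟨fun e => f e.1, ?_, ?_⟩
    · rintro ⟨e, he⟩
      have := hf1 e he
      simpa only [he, dif_pos] using this
    · rintro ⟨e, he⟩ ⟨e', he'⟩ hadj
      rw [SimpleGraph.lineGraph_adj_iff_exists] at hadj
      obtain ⟨hne, x, hx, hx'⟩ := hadj
      obtain ⟨a, rfl⟩ := Sym2.mem_iff_exists.1 hx
      obtain ⟨b, rfl⟩ := Sym2.mem_iff_exists.1 hx'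
      have hab : a ≠ b := fun hh => hne (by subst hh; rfl)
      exact hf2 x a b he he' hab
  have h3 := maxDegree_le_of_colorable G n
  exact ⟨⟨fun hc => h2 (h3 hc), h1⟩, ⟨h3, fun hn => h1 (h2 hn)⟩⟩

end Pool.Agent.Helper21.LEH
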